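import Pool.Agent.Helper94.HB.Final

set_option autoImplicit false

/-- Every element `g` of the ternary hyperbraid group `G` generates a free endomorphic algebra:
the operation `tG` of `G` is self-distributive, and for every `g` there is exactly one homomorphism
from the free endomorphic algebra `F` on one generator to `(G, tG)` sending the generator to `g`,
and it is injective; equivalently, two one-variable ternary terms have the same value at `g` if and
only if they are equal modulo self-distributivity. -/
theorem Pool.Agent.Results.MP_18a08038_al.FreeGeneration.result (g : HB.G) :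
    (∀ a b x y z : HB.G, HB.tG a b (HB.tG x y z) =
      HB.tG (HB.tG a b x) (HB.tG a b y) (HB.tG a b z)) ∧
    (∃ φ : HB.F → HB.G,
      (∀ a b c : HB.F, φ (HB.F.op a b c) = HB.tG (φ a) (φ b) (φ c)) ∧
      φ (HB.F.mk HB.Term.var) = g ∧ Function.Injective φ ∧
      (∀ ψ : HB.F → HB.G, (∀ a b c : HB.F, ψ (HB.F.op a b c) = HB.tG (ψ a) (ψ b) (ψ c)) →
        ψ (HB.F.mk HB.Term.var) = g → ψ = φ)) ∧
    (∀ p q : HB.Term, p.eval g = q.eval g ↔ HB.LD p q) := by
  obtain ⟨φ, h1, h2, h3, h4, h5⟩ := HB.free_generation g
  exact ⟨HB.tG_ld, ⟨φ, h1, h2, h3, h4⟩, h5⟩
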